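import Pool.Agent.H453R3.TrStone
import Pool.Agent.H453R3.Gadget

/-!
# Conjugacy of topologically transitive homeomorphisms of the Cantor set

It is Borel bi-reducible with isomorphism of countable graphs, hence with the maximal
action of the infinite symmetric group. This answers Q2 of the problem.
-/

set_option autoImplicit false

open Set MeasureTheory

namespace Pool.Agent.Results.MP_f7d718_lc.TransitiveBireducible

/-- The Cantor set. -/
abbrev Cantor : Type := ℕ → Bool

/-- The topology of uniform convergence on the homeomorphism group of the Cantor set: the one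
induced by the compact-open topology of the space of continuous self-maps. -/
def unifTop : TopologicalSpace (Cantor ≃ₜ Cantor) :=
  TopologicalSpace.induced (fun T => (⟨T, T.continuous⟩ : C(Cantor, Cantor))) inferInstance

/-- Topological transitivity: for nonempty open `U`, `V` some integer power of `T` maps `U` to
a set meeting `V`. -/
def IsTrans (T : Cantor ≃ₜ Cantor) : Prop :=
  ∀ U V : Set Cantor, IsOpen U → IsOpen V → U.Nonempty → V.Nonempty →
    ∃ n : ℤ, (((T ^ n : Cantor ≃ₜ Cantor) '' U) ∩ V).Nonempty

/-- The set of transitive homeomorphisms. -/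
abbrev Tr : Type := {T : Cantor ≃ₜ Cantor // IsTrans T}

/-- Its Borel sets, from the topology of uniform convergence. -/
def borTr : MeasurableSpace Tr := (@borel _ unifTop).comap Subtype.val

/-- Topological conjugacy. -/
def Conj (S T : Tr) : Prop := ∃ h : Cantor ≃ₜ Cantor, S.1 = h * T.1 * h⁻¹

/-- Countable graphs: symmetric irreflexive relations on `ℕ`. -/
abbrev Graph : Type := {G : ℕ → ℕ → Bool // (∀ i j, G i j = G j i) ∧ ∀ i, G i i = false}

/-- The Borel structure of the space of graphs, from the product. -/
def borGraph : MeasurableSpace Graph := MeasurableSpace.comap Subtype.val inferInstance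

/-- Isomorphism of countable graphs. -/
def GIso (G H : Graph) : Prop := ∃ σ : Equiv.Perm ℕ, ∀ i j, G.1 i j = H.1 (σ i) (σ j)

/-- Borel reducibility. -/
def BorelRed {X Y : Type} (mX : MeasurableSpace X) (mY : MeasurableSpace Y)
    (E : X → X → Prop) (F : Y → Y → Prop) : Prop :=
  ∃ f : X → Y, @Measurable X Y mX mY f ∧ ∀ x x', E x x' ↔ F (f x) (f x')

/-- Conjugacy of transitive homeomorphisms of the Cantor set and isomorphism of countable graphs
are Borel reducible to each other. -/
theorem result : BorelRed borGraph borTr GIso Conj ∧ BorelRed borTr borGraph Conj GIso := by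
  have htop : unifTop = H453R3.TC.homeoTop := rfl
  constructor
  · refine ⟨fun G => ⟨H453R3.TC.TT G.1, H453R3.TC.TT_trans G.1⟩, ?_, ?_⟩
    · letI := borGraph
      unfold borTr
      rw [measurable_comap_iff, htop]
      refine H453R3.TC.measurable_homeo _ fun z => ?_
      have h1 : Measurable fun G : Graph => G.1 := comap_measurable _
      exact (H453R3.TC.meas_TT z).comp h1
    · intro G H
      exact H453R3.TC.TT_conj_iff G.1 H.1
  · refine ⟨fun T => ⟨H453R3.TC.gr (H453R3.TC.cd T.1), H453R3.TC.gr_symm _,
      H453R3.TC.gr_irrefl _⟩, ?_, ?_⟩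
    · unfold borGraph
      rw [measurable_comap_iff]
      letI := borTr
      letI : MeasurableSpace (Cantor ≃ₜ Cantor) := @borel _ H453R3.TC.homeoTop
      have h1 : Measurable fun T : Tr => T.1 := comap_measurable _
      exact (H453R3.TC.meas_gr.comp H453R3.TC.meas_cd).comp h1
    · intro S T
      have h1 : Conj S T ↔ ∃ h : Cantor ≃ₜ Cantor, T.1 = h * S.1 * h⁻¹ := by
        constructor
        · rintro ⟨h, hh⟩
          refine ⟨h⁻¹, ?_⟩
          rw [hh]
          group
        · rintro ⟨h, hh⟩
          refine ⟨h⁻¹, ?_⟩
          rw [hh]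
          group
      rw [h1, H453R3.TC.cd_iff]
      exact H453R3.TC.gr_iff _ _

end Pool.Agent.Results.MP_f7d718_lc.TransitiveBireducible
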